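import Pool.Agent.U951.TR.GapsA
import Pool.Agent.Q278.KT.Fin

/-!
# Andrica's inequality for all primes in long intervals around `α g ^ D`, `g = s(n)`, `n - φ(n)`, `α' n + β' f(n)`

Let `s(n)` be the sum of the proper divisors of `n`. Let `α > 0`, `D ≥ 1`, `1 / 2 ≤ w ≤ 0.694`, `D (1 - w) ≤ 1` and `e
= 1 - D (0.694 - w)`. For a set of `n` of lower density at least `1 - e = D (0.694 - w)` the following holds for `x =
α s(n) ^ D`, and the same for `x = α (n - φ(n)) ^ D`: all the consecutive primes `p < q` with `[p, q]` meeting `[x - x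
^ w, x + x ^ w]` satisfy `√q - √p < p ^ (-δ) < 1`, so that Andrica's inequality holds for them. For example this is
true near `s(n) ^ 2`, with windows of length `√x`, for a set of `n` of lower density at least `0.388`. More precisely
it holds for almost all `n` with a divisor `≥ n ^ e` which is a prime or the product of two different primes, and for
the values `g = α' n + β' f(n)` of multiplicative functions with `f p = p + c` at the primes, uniformly in `|α'|, |β'|
≤ N ^ δ'` and with a power saving in the number of the exceptional `n`.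

The values `s(n)`, `n - φ(n)` are not multiplicative, and some of them are taken very often, so that bounds for the
number of exceptional primes up to `X` do not say anything about them.

Proof. The starting library (`Pool/Agent/Q278/KT`) bounds the number of the separated short intervals with few primes;
helper821 found representatives with a power saving (`S821/Poor`, `S821/PoorLaw`). Let `n = k v p` with large primes
`p ≠ v`. Then `g = A v p + B (v + p) + B c`, `A = α' k + β' f(k)`, `B = β' c f(k)`, and so `(A v + B) (A p + B) = A g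
+ B² - A B c`: for given `g`, `k`, `α'`, `β'` there are only `N^o(1)` possibilities for `p` and `v` (tool
`Pool.Agent.U365.POW` of helper365).
-/

set_option autoImplicit false

open Finset Filter

namespace Pool.Agent.Results.MP_82fd4a_nt.AliquotValues

open Pool.Agent.U365.POW (Values Dens)

/-- `p < q` are consecutive primes. -/
def Consecutive (p q : ℕ) : Prop := p.Prime ∧ q.Prime ∧ p < q ∧ ∀ r : ℕ, p < r → r < q → ¬ r.Prime

/-- The interval `[p, q]` meets `[x - x ^ w, x + x ^ w]`. -/
def Meets (w x : ℝ) (p q : ℕ) : Prop := (p : ℝ) ≤ x + x ^ w ∧ x - x ^ w ≤ q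

/-- All consecutive primes `p < q` with `[p, q]` meeting `[x - x ^ w, x + x ^ w]` satisfy `√q - √p < p ^ (-δ) < 1`. -/
def Andrica (δ w x : ℝ) : Prop := ∀ p q : ℕ, Consecutive p q → Meets w x p q →
  Real.sqrt q - Real.sqrt p < (p : ℝ) ^ (-δ) ∧ (p : ℝ) ^ (-δ) < 1

lemma andrica_of {δ w x : ℝ} (hδ : 0 < δ) (h : Pool.Agent.S821.Poor.Small (1 - 1 / 2 - δ) w x) : Andrica δ w x := by
  intro p q hpq hm
  have h4 := Pool.Agent.S821.Poor.andrica h p q hpq.1 hpq.2.1 hpq.2.2.1 hpq.2.2.2 hm.1 hm.2
  have e : (1 : ℝ) - 1 / 2 - δ - 1 / 2 = -δ := by ring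
  rw [e] at h4
  refine ⟨h4, ?_⟩
  have hp : (1 : ℝ) < p := by exact_mod_cast hpq.1.one_lt
  exact Real.rpow_lt_one_of_one_lt_of_neg hp (by linarith)

/-- **Theorem.** Let `α > 0`, `D ≥ 1`, `1 / 2 ≤ w ≤ 0.694`, `D (1 - w) ≤ 1`. The property `Andrica δ w x` of `x = α g ^ D`
holds for the values `g` of functions similar to the aliquot sum (`Values e`, `e = 1 - D (0.694 - w)`: for `s(n)`, for
`n - φ(n)` and for all `α' n + β' f(n)`, for almost all the `n` with a divisor `≥ n ^ e` which is a prime or the
product of two different primes), and for both `g = s(n)` and `g = n - φ(n)` for a set of `n` of lower density at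
least `D (0.694 - w)`. -/
theorem result :
    ∃ δ : ℝ, 0 < δ ∧ ∀ α D w : ℝ, 0 < α → 1 ≤ D → 1 / 2 ≤ w → w ≤ 0.694 → D * (1 - w) ≤ 1 →
      Values (1 - D * (0.694 - w)) (fun v => Andrica δ w (α * (v : ℝ) ^ D)) ∧
        Dens (D * (0.694 - w)) (fun v => Andrica δ w (α * (v : ℝ) ^ D)) := by
  obtain ⟨c, δ, hc, hδ, H⟩ := Pool.Agent.U951.TR.Gaps.tools Pool.Agent.Q278.KT.mainp_half (by norm_num) (by norm_num)
    (by norm_num) (by norm_num)
  refine ⟨δ, hδ, fun α D w hα hD hw hw2 hDw => ?_⟩
  have h := (H α D w hα hD (by norm_num; linarith) (by norm_num; linarith) hDw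
    (fun v => Andrica δ w (α * (v : ℝ) ^ D)) 0 (fun v _ h => andrica_of hδ h.2)
    (1 - D * (0.694 - w)) (by rw [show (0.694 : ℝ) = 1 - 0.306 by norm_num]; ring)).1
  rwa [sub_sub_cancel] at h

end Pool.Agent.Results.MP_82fd4a_nt.AliquotValues
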