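import Pool.Agent.S821.PoorLaw
import Pool.Agent.Q278.KT.Fin

/-!
# Andrica's inequality for all primes in long intervals around the values of arithmetic functions

Let `f` be Euler's function, the sum of the divisors, or another multiplicative function with `f p ≤ C p` and injective at the
large primes. We show that for almost all `m` (all `m ≤ N` but `N / (log N) ^ U`, for every `U`) EVERY pair of consecutive primes
`p < q` such that `[p, q]` meets the interval `|t - f(m)| ≤ f(m) ^ 0.694` satisfies `√q - √p < p ^ (-δ)`, so that Andrica's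
inequality `√q - √p < 1` holds for all of them, and all intervals of length `H ≥ a ^ (1/2 - δ)` in this range contain at least
`c H / log a` primes. The same is true around `α f(m) ^ D`, for `1 ≤ D ≤ 3.267`, for example for all primes within
`x ^ 0.694` of `x = f(m) ^ 2` or `x = f(m) ^ 3`. In the longer intervals `|t - x| ≤ x ^ 0.955`, around `x = α f(m) ^ D`, `D ≤ 22.2`, the gaps are
at most `p ^ (0.57 - δ)`; in the intervals `|t - x| ≤ x ^ (3/16)`, `D ≤ 16/13`, they are at most `p ^ (3/16 - δ)`. There are also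
versions for the orbits of Euler's function (for almost all `m` all the iterates `φ_j(m)`, `j ≤ K(m)`, have this property, where
`K(m) → ∞`), and for compositions of additive functions, the largest prime factor and others.

The values form sets of density zero (Euler's function) and are taken with very large multiplicities, so that theorems
on the exceptional set in Andrica's inequality do not say anything about almost all arguments `m`.

Proof. The starting library bounds the number of separated short intervals with few primes (`Pool/Agent/Q278/KT`: at most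
`X ^ 0.306` intervals of length `x ^ (1/2 - η)`, at most `X ^ 0.045` of length `x ^ (0.57 - η)`, at most `X ^ (13/16)` of length
`x ^ (3/16 - η)`), in the form of helper766 (`Pool/Agent/U766/OP/Core`). New: a set of representatives with a power saving
(`S821/Poor`), whose roots of order `D` are avoided by the values of arithmetic functions in long windows (laws of `N733.TG`,
`N760.IT`, `N375.AV` of the starting library), and the passage to all primes near the values (`S821/PoorLaw`).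
-/

set_option autoImplicit false

open Finset Filter

namespace Pool.Agent.Results.MP_82fd4a_nt.NearMultiplicativeValues

open Pool.Agent.N733.TG (LM)
open Pool.Agent.N375.AV (PD)
open Pool.Agent.S821.Laws (Three)

/-- The three scales: the lengths `x ^ (θ - δ)` and the exponents `s` of the numbers of the exceptional intervals. -/
def Scale (θ s : ℝ) : Prop := (θ = 1 / 2 ∧ s = 0.306) ∨ (θ = 0.57 ∧ s = 0.045) ∨ (θ = 3 / 16 ∧ s = 13 / 16)

/-- `p < q` are consecutive primes. -/
def Consecutive (p q : ℕ) : Prop := p.Prime ∧ q.Prime ∧ p < q ∧ ∀ r : ℕ, p < r → r < q → ¬ r.Prime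

/-- The interval `[p, q]` meets `[x - x ^ ρ, x + x ^ ρ]`. -/
def Meets (ρ x : ℝ) (p q : ℕ) : Prop := (p : ℝ) ≤ x + x ^ ρ ∧ x - x ^ ρ ≤ q

/-- Every interval `(a, a + H]` in `[x - x ^ ρ, x + x ^ ρ]` of length `H ≥ a ^ θ` contains at least `c H / log a` primes. -/
def ManyPrimes (c θ ρ x : ℝ) : Prop := ∀ a H : ℕ, |(a : ℝ) - x| ≤ x ^ ρ → |((a : ℝ) + H) - x| ≤ x ^ ρ →
  (a : ℝ) ^ θ ≤ H → c * H / Real.log a ≤ (((Finset.Ioc a (a + H)).filter Nat.Prime).card : ℝ)

/-- All consecutive primes `p < q` with `[p, q]` meeting `[x - x ^ ρ, x + x ^ ρ]` satisfy `q - p ≤ p ^ θ`. -/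
def SmallGaps (θ ρ x : ℝ) : Prop := ∀ p q : ℕ, Consecutive p q → Meets ρ x p q → (q : ℝ) - p ≤ (p : ℝ) ^ θ

/-- All consecutive primes `p < q` with `[p, q]` meeting `[x - x ^ ρ, x + x ^ ρ]` satisfy `√q - √p < p ^ (-δ) < 1`. -/
def Andrica (δ ρ x : ℝ) : Prop := ∀ p q : ℕ, Consecutive p q → Meets ρ x p q →
  Real.sqrt q - Real.sqrt p < (p : ℝ) ^ (-δ) ∧ (p : ℝ) ^ (-δ) < 1

/-- **Andrica's inequality for all primes around the values of arithmetic functions.** There are `c > 0` and `δ > 0` with the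
following properties, in the sense of the three laws (`Three`) for the values `v` of multiplicative functions, for the values
along the orbits of Euler's function and for the values of compositions of functions dominated by the largest prime factor.

(1) Let `(θ, s) = (1/2, 0.306)`, `(0.57, 0.045)` or `(3/16, 13/16)`, `α > 0`, `D ≥ 1` and `D s ≤ 1`. For `x = α v ^ D`, all intervals
of length `H ≥ a ^ (θ - δ)` in `[x - x ^ (1 - s), x + x ^ (1 - s)]` contain at least `c H / log a` primes, and all the consecutive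
primes `p < q` with `[p, q]` meeting this interval satisfy `q - p ≤ p ^ (θ - δ)`.

(2) Let `α > 0`, `D ≥ 1` and `0.306 D ≤ 1`. All the consecutive primes `p < q` with `[p, q]` meeting the interval
`[x - x ^ 0.694, x + x ^ 0.694]`, `x = α v ^ D`, satisfy `√q - √p < p ^ (-δ) < 1`.

(3) Examples of such functions. -/
theorem result :
    (∃ c δ : ℝ, 0 < c ∧ 0 < δ ∧
      (∀ θ s : ℝ, Scale θ s → ∀ α D : ℝ, 0 < α → 1 ≤ D → D * s ≤ 1 →
        Three (fun _ x => ManyPrimes c (θ - δ) (1 - s) x ∧ SmallGaps (θ - δ) (1 - s) x) (fun v => α * (v : ℝ) ^ D)) ∧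
      ∀ α D : ℝ, 0 < α → 1 ≤ D → D * 0.306 ≤ 1 → Three (fun _ x => Andrica δ 0.694 x) (fun v => α * (v : ℝ) ^ D)) ∧
    (LM (fun m => m) ∧ LM Nat.totient ∧ LM (fun m => ∑ d ∈ m.divisors, d)) ∧
    ((∀ f : ℕ → ℕ, (∀ a b : ℕ, Nat.Coprime a b → f (a * b) = f a + f b) →
      (∃ C : ℕ, ∀ q j : ℕ, q.Prime → 1 ≤ j → f (q ^ j) ≤ C * q ^ j) →
      (∃ P : ℕ, ∀ p q : ℕ, p.Prime → q.Prime → P ≤ p → P ≤ q → f p = f q → p = q) → PD f) ∧
      PD (fun n => n.primeFactors.sup id) ∧ PD (fun n => sInf {k : ℕ | n ∣ k.factorial})) := by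
  obtain ⟨e1, e2, -⟩ := Pool.Agent.S821.Laws.examples
  refine ⟨?_, e1, e2⟩
  obtain ⟨c1, δ1, hc1, hδ1, h1⟩ := Pool.Agent.S821.Poor.one_scale Pool.Agent.Q278.KT.mainp_half (by norm_num)
    (by norm_num) (by norm_num) (by norm_num)
  obtain ⟨c2, δ2, hc2, hδ2, h2⟩ := Pool.Agent.S821.Poor.one_scale Pool.Agent.Q278.KT.mainp_043 (by norm_num)
    (by norm_num) (by norm_num) (by norm_num)
  obtain ⟨c3, δ3, hc3, hδ3, h3⟩ := Pool.Agent.S821.Poor.one_scale Pool.Agent.Q278.KT.mainp_1316 (by norm_num)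
    (by norm_num) (by norm_num) (by norm_num)
  obtain ⟨c, hc⟩ : ∃ c : ℝ, c = min c1 (min c2 c3) := ⟨_, rfl⟩
  obtain ⟨δ, hδ⟩ : ∃ δ : ℝ, δ = min δ1 (min δ2 δ3) := ⟨_, rfl⟩
  have a1 : c ≤ c1 ∧ δ ≤ δ1 := by rw [hc, hδ]; exact ⟨min_le_left _ _, min_le_left _ _⟩
  have a2 : c ≤ c2 ∧ δ ≤ δ2 := by
    rw [hc, hδ]; exact ⟨(min_le_right _ _).trans (min_le_left _ _), (min_le_right _ _).trans (min_le_left _ _)⟩
  have a3 : c ≤ c3 ∧ δ ≤ δ3 := by
    rw [hc, hδ]; exact ⟨(min_le_right _ _).trans (min_le_right _ _), (min_le_right _ _).trans (min_le_right _ _)⟩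
  have hc0 : 0 < c := by rw [hc]; exact lt_min hc1 (lt_min hc2 hc3)
  have hδ0 : 0 < δ := by rw [hδ]; exact lt_min hδ1 (lt_min hδ2 hδ3)
  have conv : ∀ (c' lam0 δ' θ s x : ℝ), c ≤ c' → δ ≤ δ' → θ = 1 - lam0 →
      Pool.Agent.S821.Poor.Dense c' (1 - lam0 - δ') (1 - s) x ∧ Pool.Agent.S821.Poor.Small (1 - lam0 - δ') (1 - s) x →
      ManyPrimes c (θ - δ) (1 - s) x ∧ SmallGaps (θ - δ) (1 - s) x := by
    rintro c' lam0 δ' θ s x g1 g2 rfl ⟨g3, g4⟩
    refine ⟨g3.mono g1 (by linarith), fun p q hpq hm => ?_⟩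
    exact (g4.mono (by linarith : 1 - lam0 - δ' ≤ 1 - lam0 - δ)) p q hpq.1 hpq.2.1 hpq.2.2.1 hpq.2.2.2 hm.1 hm.2
  refine ⟨c, δ, hc0, hδ0, fun θ s hθs α D hα hD hDs => ?_, fun α D hα hD hDs => ?_⟩
  · rcases hθs with ⟨g1, g2⟩ | ⟨g1, g2⟩ | ⟨g1, g2⟩
    · subst g2
      exact (h1 α D hα hD hDs).mono fun v x h => conv c1 (1 / 2) δ1 θ _ x a1.1 a1.2 (by rw [g1]; norm_num) h
    · subst g2
      exact (h2 α D hα hD hDs).mono fun v x h => conv c2 0.43 δ2 θ _ x a2.1 a2.2 (by rw [g1]; norm_num) h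
    · subst g2
      exact (h3 α D hα hD hDs).mono fun v x h => conv c3 (13 / 16) δ3 θ _ x a3.1 a3.2 (by rw [g1]; norm_num) h
  · refine (h1 α D hα hD hDs).mono fun v x h p q hpq hm => ?_
    have h5 : (1 : ℝ) - 0.306 = 0.694 := by norm_num
    rw [h5] at h
    have h4 := Pool.Agent.S821.Poor.andrica (h.2.mono (by linarith [a1.2] : 1 - 1 / 2 - δ1 ≤ 1 / 2 - δ)) p q hpq.1
      hpq.2.1 hpq.2.2.1 hpq.2.2.2 hm.1 hm.2
    have e : (1 : ℝ) / 2 - δ - 1 / 2 = -δ := by ring
    rw [e] at h4
    refine ⟨h4, ?_⟩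
    have hp : (1 : ℝ) < p := by exact_mod_cast hpq.1.one_lt
    exact Real.rpow_lt_one_of_one_lt_of_neg hp (by linarith)

end Pool.Agent.Results.MP_82fd4a_nt.NearMultiplicativeValues
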