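import Pool.Agent.U951.TR.GapsA
import Pool.Agent.Q278.KT.Fin

/-!
# Andrica's inequality for all primes in long intervals around `α f(v) ^ D` at thin sets of arguments

Let `f` be a positive multiplicative function of at most polynomial growth which for each `a ≥ 1` is injective at the
powers `p ^ a` of the large primes and at most `M p ^ a` there; for example Euler's function or the sum of the
divisors. Let `α > 0`, `D ≥ 1`, `1 / 2 ≤ w ≤ 0.694`, `D (1 - w) ≤ 1` and `e = 1 - D (0.694 - w)`. For `x = α f(v) ^ D`
the following holds for almost all `v` (with a saving of any power of the logarithm) in each of the sets below: all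
the consecutive primes `p < q` with `[p, q]` meeting `[x - x ^ w, x + x ^ w]` satisfy `√q - √p < p ^ (-δ) < 1`, so
that Andrica's inequality holds for them. The sets are:

* the values of any integer polynomial without repeated roots, of degree `r` with `r e < 1`;

* the shifted primes `p + a`, `a` any integer, if `e < 1`;

* the intervals `(x, x + y]`, `x^τ ≤ y ≤ x`, for every `τ > e`, `τ ≤ 1`.

For example, for `D = 2` and windows of length `√x` we have `e = 0.612`, and there is the case of all `x = φ(p + a) ^
2` for almost all primes `p`.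

Proof. The starting library (`Pool/Agent/Q278/KT`) bounds the number of the separated short intervals with few primes;
helper821 found representatives with a power saving (`S821/Poor`, `S821/PoorLaw`). The tool `Pool.Agent.U405.RS` of
helper405 (weighted Rankin method) shows that the values of `f` at almost all elements of these sets avoid every set
with a power saving.
-/

set_option autoImplicit false

open Finset Filter

namespace Pool.Agent.Results.MP_82fd4a_nt.SparseArguments

open Pool.Agent.U405.RS (PM Sparse examples)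

/-- `p < q` are consecutive primes. -/
def Consecutive (p q : ℕ) : Prop := p.Prime ∧ q.Prime ∧ p < q ∧ ∀ r : ℕ, p < r → r < q → ¬ r.Prime

/-- The interval `[p, q]` meets `[x - x ^ w, x + x ^ w]`. -/
def Meets (w x : ℝ) (p q : ℕ) : Prop := (p : ℝ) ≤ x + x ^ w ∧ x - x ^ w ≤ q

/-- All consecutive primes `p < q` with `[p, q]` meeting `[x - x ^ w, x + x ^ w]` satisfy `√q - √p < p ^ (-δ) < 1`. -/
def Andrica (δ w x : ℝ) : Prop := ∀ p q : ℕ, Consecutive p q → Meets w x p q →
  Real.sqrt q - Real.sqrt p < (p : ℝ) ^ (-δ) ∧ (p : ℝ) ^ (-δ) < 1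

lemma andrica_of {δ w x : ℝ} (hδ : 0 < δ) (h : Pool.Agent.S821.Poor.Small (1 - 1 / 2 - δ) w x) : Andrica δ w x := by
  intro p q hpq hm
  have h4 := Pool.Agent.S821.Poor.andrica h p q hpq.1 hpq.2.1 hpq.2.2.1 hpq.2.2.2 hm.1 hm.2
  have e : (1 : ℝ) - 1 / 2 - δ - 1 / 2 = -δ := by ring
  rw [e] at h4
  refine ⟨h4, ?_⟩
  have hp : (1 : ℝ) < p := by exact_mod_cast hpq.1.one_lt
  exact Real.rpow_lt_one_of_one_lt_of_neg hp (by linarith)

/-- **Theorem.** Let `f` be in the class `PM`, `α > 0`, `D ≥ 1`, `1 / 2 ≤ w ≤ 0.694`, `D (1 - w) ≤ 1`, `e = 1 - D (0.694 -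
w)`. For every `U` the property `Andrica δ w x` of `x = α f(v) ^ D` holds in the sense `Sparse e f`: with a saving of
`(log x)^U` for almost all `v` among the positive values of every integer polynomial without repeated roots of degree
`r`, `r e < 1`; among the shifted primes `p + a`, if `e < 1`; and in all intervals `(x, x + y]`, `x^τ ≤ y ≤ x`, `e < τ
≤ 1`. Euler's function, the sum of the divisors and the identity are in the class. -/
theorem result :
    (∃ δ : ℝ, 0 < δ ∧ ∀ α D w : ℝ, 0 < α → 1 ≤ D → 1 / 2 ≤ w → w ≤ 0.694 → D * (1 - w) ≤ 1 →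
      ∀ f : ℕ → ℕ, PM f → ∀ U : ℕ, Sparse (1 - D * (0.694 - w)) f (fun v => Andrica δ w (α * (v : ℝ) ^ D)) U) ∧
    (PM Nat.totient ∧ PM (fun m => ∑ d ∈ m.divisors, d) ∧ PM (fun m => m)) := by
  refine ⟨?_, examples⟩
  obtain ⟨c, δ, hc, hδ, H⟩ := Pool.Agent.U951.TR.Gaps.tools Pool.Agent.Q278.KT.mainp_half (by norm_num) (by norm_num)
    (by norm_num) (by norm_num)
  refine ⟨δ, hδ, fun α D w hα hD hw hw2 hDw f hf U => ?_⟩
  exact (H α D w hα hD (by norm_num; linarith) (by norm_num; linarith) hDw
    (fun v => Andrica δ w (α * (v : ℝ) ^ D)) 0 (fun v _ h => andrica_of hδ h.2)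
    (1 - D * (0.694 - w)) (by rw [show (0.694 : ℝ) = 1 - 0.306 by norm_num]; ring)).2.1 f hf U

end Pool.Agent.Results.MP_82fd4a_nt.SparseArguments
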